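import Mathlib
import Pool.Agent.Helper43.UN.GoalsR
import Pool.Agent.Helper69.UW.V3s

/-!
# Project UN (MP_d3128a_ag), packet V3sn: starts of the virtual play

`GoalV3sn` from `GoalV2` and `GoalR6en`.
-/

set_option autoImplicit false

namespace Pool.Agent.Helper8.UN

open Finset
open Pool.Agent.Lead.Sh
open Pool.Agent.Helper43.Hw (T na va lz Play aa ac sc oo sk U Dd Sd Pn nx bb np)
open Pool.Agent.Helper18.UW (Par4 UPlay uz UPre uo us vk vx vd Vh GoalV2)
open Pool.Agent.Helper69.UW (v3s_lt_ac v3s_ac_le v3s_ac_le_τ v3s_ac_mono)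
open Pool.Agent.Helper43.UN

/-- The packet V3sn. -/
theorem goalV3sn (hV2 : GoalV2) (hR6e : GoalR6en) : GoalV3sn := by
  intro m ms M Mb μ δ R A0 E0 βp βm N00 N0 N N1 K b l Lg q v τ ℓ W κ x hSu hBx hVh z z'
    hz hzz hzτ
  obtain ⟨-, -, h3, -⟩ := hV2 m μ δ R N N1 (κ τ) τ κ x hVh
  rw [h3 z (hzz.trans hzτ), h3 z' hzτ]
  have hτR : τ + 1 + μ ≤ R := hVh.tJ
  have hpl := hVh.play
  set A := (Ico N1 (κ τ)).filter (fun c => ac R κ x c + m c ≤ z + μ) with hA
  set B := (Ico N1 (κ τ)).filter (fun c => ac R κ x c + m c ≤ z' + μ) with hB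
  have hAB : A ⊆ B := by
    intro c hc
    rw [hA, mem_filter] at hc
    rw [hB, mem_filter]
    exact ⟨hc.1, hc.2.trans (by omega)⟩
  have hcard : B.card - A.card = (B \ A).card := (card_sdiff_of_subset hAB).symm
  rw [hcard]
  rcases (B \ A).eq_empty_or_nonempty with he | hne
  · rw [he]
    simp
  · set c1 := (B \ A).min' hne with hc1
    have hc1m : c1 ∈ B \ A := min'_mem _ hne
    have hmem : ∀ c ∈ B \ A, (N1 ≤ c ∧ c < κ τ) ∧ ac R κ x c + m c ≤ z' + μ ∧
        z + μ < ac R κ x c + m c := by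
      intro c hc
      rw [mem_sdiff, hA, hB, mem_filter, mem_filter, mem_Ico] at hc
      refine ⟨hc.1.1, hc.1.2, ?_⟩
      by_contra h5
      exact hc.2 ⟨hc.1.1, not_lt.1 h5⟩
    obtain ⟨⟨h11, h12⟩, h13, h14⟩ := hmem c1 hc1m
    have hgN := hVh.gN
    have hm1 := hVh.main c1 h11 (by omega)
    have hac1 : ac R κ x c1 ≤ τ := v3s_ac_le_τ hpl h12
    -- the two rows
    have hr1 : z + (μ - m c1) < ac R κ x c1 := by omega
    have hsub : B \ A ⊆ Ico (aa κ x (z + (μ - m c1))) (aa κ x (min (z' + (μ - m c1)) τ)) := by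
      intro c hc
      obtain ⟨⟨h21, h22⟩, h23, h24⟩ := hmem c hc
      have h25 : c1 ≤ c := min'_le _ c hc
      have h26 := v3s_ac_mono R κ x h25
      have h27 := hVh.mono c1 c h11 h25 (by omega)
      have h28 := (hVh.main c h21 (by omega)).2
      have h29 := v3s_ac_le_τ hpl h22
      rw [mem_Ico]
      constructor
      · exact v3s_lt_ac hpl (by omega)
      · exact v3s_ac_le hpl (by omega) (by omega)
    have hcl := card_le_card hsub
    rw [Nat.card_Ico] at hcl
    have h6 := hR6e m ms M Mb μ δ R A0 E0 βp βm N00 N0 N K b l Lg q v τ ℓ W κ x hSu hBx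
      (z + (μ - m c1)) (min (z' + (μ - m c1)) τ) (by omega) (by omega) (min_le_right _ _)
    have h7 : min (z' + (μ - m c1)) τ - (z + (μ - m c1)) ≤ z' - z := by omega
    calc l * (B \ A).card ≤ l * (aa κ x (min (z' + (μ - m c1)) τ) -
          aa κ x (z + (μ - m c1))) := Nat.mul_le_mul_left _ hcl
      _ ≤ 160 * (min (z' + (μ - m c1)) τ - (z + (μ - m c1))) + 3 * l := h6
      _ ≤ 160 * (z' - z) + 3 * l := by omega

end Pool.Agent.Helper8.UN
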