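import Pool.Agent.Helper43.UN.GoalsH
import Pool.Agent.Helper18.SG.Main2
import Pool.Agent.Helper75.UW.UFin

/-! # Project UN (MP_d3128a_ag), packet FinN: the real constants -/

set_option autoImplicit false

namespace Pool.Agent.Helper8.UN

open Finset
open Pool.Agent.Helper18.UW (lg)
open Pool.Agent.Helper75.UW (lg_le)
open Pool.Agent.Helper43.UN

/-- The packet FinN. -/
theorem goalFinN : GoalFinN := by
  intro h
  refine ⟨2 ^ 860 * 10 ^ 6, by positivity, ?_⟩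
  intro s m d hm hz hd hor
  rcases Nat.lt_or_ge (m 9) 2 with h9 | h9
  · exact Pool.Agent.Helper18.SG.main_room s m d hm hz hd (Or.inl (by omega))
  rcases Nat.lt_or_ge (∑ i ∈ range 9, m i) (3 * d) with hlt | hge
  swap
  · exact Pool.Agent.Helper18.SG.main_room s m d hm hz hd (Or.inr (Or.inl hge))
  rcases hor with h1 | ⟨h1, h2⟩
  · omega
  have hl := lg_le (show 1 ≤ m 9 by omega)
  have hlog : (0 : ℝ) ≤ Real.log (m 9) := Real.log_nonneg (by exact_mod_cast (by omega : 1 ≤ m 9))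
  have h3 : ((lg (m 9) : ℝ)) ^ 3 ≤ (10 * (1 + Real.log (m 9))) ^ 3 :=
    pow_le_pow_left₀ (Nat.cast_nonneg _) hl 3
  have h6 : ((lg (m 9) : ℝ)) ^ 6 ≤ (10 * (1 + Real.log (m 9))) ^ 6 :=
    pow_le_pow_left₀ (Nat.cast_nonneg _) hl 6
  have hcc : (2 : ℝ) ^ 411 * 1000 ≤ 2 ^ 860 * 10 ^ 6 :=
    mul_le_mul (pow_le_pow_right₀ (by norm_num) (by norm_num)) (by norm_num) (by norm_num)
      (by positivity)
  refine h s m d hm hz hd h9 hlt ?_ ?_
  · have h4 : ((m 0 + 2 ^ 411 * lg (m 9) ^ 3 * m 9 : ℕ) : ℝ) ≤ d := by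
      refine le_trans ?_ h1
      push_cast
      have h5 : (2 : ℝ) ^ 411 * (lg (m 9) : ℝ) ^ 3 * (m 9 : ℝ) ≤
          2 ^ 860 * 10 ^ 6 * (m 9 : ℝ) * (1 + Real.log (m 9)) ^ 3 := by
        calc (2 : ℝ) ^ 411 * (lg (m 9) : ℝ) ^ 3 * (m 9 : ℝ)
            ≤ 2 ^ 411 * (10 * (1 + Real.log (m 9))) ^ 3 * (m 9 : ℝ) :=
              mul_le_mul_of_nonneg_right (mul_le_mul_of_nonneg_left h3 (by positivity))
                (Nat.cast_nonneg _)
          _ = (2 ^ 411 * 1000) * ((m 9 : ℝ) * (1 + Real.log (m 9)) ^ 3) := by ring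
          _ ≤ (2 ^ 860 * 10 ^ 6) * ((m 9 : ℝ) * (1 + Real.log (m 9)) ^ 3) :=
              mul_le_mul_of_nonneg_right hcc (by positivity)
          _ = 2 ^ 860 * 10 ^ 6 * (m 9 : ℝ) * (1 + Real.log (m 9)) ^ 3 := by ring
      linarith
    exact_mod_cast h4
  · have h4 : ((2 ^ 860 * lg (m 9) ^ 6 * m 9 ^ 2 + ∑ i ∈ range 9, (m i + 1).choose 2 : ℕ) : ℝ) ≤
        ((d + 2).choose 2 : ℕ) := by
      refine le_trans ?_ h2
      rw [Nat.cast_add]
      refine add_le_add_left ?_ _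
      push_cast
      calc (2 : ℝ) ^ 860 * (lg (m 9) : ℝ) ^ 6 * (m 9 : ℝ) ^ 2
          ≤ 2 ^ 860 * (10 * (1 + Real.log (m 9))) ^ 6 * (m 9 : ℝ) ^ 2 :=
            mul_le_mul_of_nonneg_right (mul_le_mul_of_nonneg_left h6 (by positivity))
              (by positivity)
        _ = 2 ^ 860 * 10 ^ 6 * (m 9 : ℝ) ^ 2 * (1 + Real.log (m 9)) ^ 6 := by ring
    exact_mod_cast h4

end Pool.Agent.Helper8.UN
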